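import Pool.Agent.H41.Bs2

set_option autoImplicit false

open Pool.Agent.H41.Bs

theorem Pool.Agent.Results.MP_dad4ef_an.No.result :
    ∃ f : ℂ × ℂ → ℂ, InD f ∧ Outer f ∧ MeasurableSet {x | RadLim f x 0} ∧
      CapZero {x | RadLim f x 0} ∧ ¬ Cyclic f :=
  ⟨ff, inD, outer, (Set.subsingleton_singleton.anti zero_sub).measurableSet, capZero, noncyc⟩
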